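import Pool.Agent.H56Gab.Lst
import Pool.Agent.H11Sum.Defs

/-!
# Conversions between lists of pairs (helper11) and blocks
-/

set_option autoImplicit false

namespace Pool.Agent.H56Gab

open Pool.Agent.Gab7c47

variable {α : Type*}

theorem fs_eq (l : List (α × α)) : H11Sum.fs l = fs l := by
  ext x
  simp only [H11Sum.fs, fs, Set.mem_setOf_eq, List.mem_map]

theorem ss_eq (l : List (α × α)) : H11Sum.ss l = sn l := by
  ext x
  simp only [H11Sum.ss, sn, Set.mem_setOf_eq, List.mem_map]

theorem ncard_range {r : ℕ} {b : Fin r → α} (hb : Function.Injective b) :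
    (Set.range b).ncard = r := by
  rw [← Set.image_univ, Set.ncard_image_of_injective _ hb, Set.ncard_univ, Nat.card_eq_fintype_card,
    Fintype.card_fin]

/-- (A) -/
theorem to_list (M : Matroid α) {r : ℕ} (u v : Fin r → α) (hu : Function.Injective u)
    (hB : M.IsBase (Set.range u)) (hB' : M.IsBase (Set.range v))
    (hW : ∀ i : Fin (r + r), M.IsBase (block u v i)) :
    H11Sum.Good M (Set.range u) (Set.range v) (List.ofFn fun i => (u i, v i)) := by
  have hG := gabL_of_block hB hB' hW
  refine ⟨?_, ?_, ?_, ?_⟩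
  · rw [List.length_ofFn, ncard_range hu]
  · rw [fs_eq]
    ext x
    simp only [fs, Set.mem_setOf_eq, List.map_ofFn, List.mem_ofFn, Function.comp_apply,
      Set.mem_range]
  · rw [ss_eq]
    ext x
    simp only [sn, Set.mem_setOf_eq, List.map_ofFn, List.mem_ofFn, Function.comp_apply,
      Set.mem_range]
  · intro l1 l2 h
    have := hG l1.length (by rw [h, List.length_append]; omega)
    rw [h, List.take_left' rfl, List.drop_left' rfl] at this
    rw [fs_eq, fs_eq, ss_eq, ss_eq]
    exact this

/-- (B) -/
theorem of_list (M : Matroid α) {r : ℕ} (b b' : Fin r → α) (hb : Function.Injective b)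
    (hb' : Function.Injective b') (l : List (α × α))
    (hl : H11Sum.Good M (Set.range b) (Set.range b') l) :
    ∃ σ σ' : Equiv.Perm (Fin r), ∀ i : Fin (r + r), M.IsBase (block (b ∘ σ) (b' ∘ σ') i) := by
  obtain ⟨h1, h2, h3, h4⟩ := hl
  rw [fs_eq] at h2
  rw [ss_eq] at h3
  refine perms hb hb' (by rw [h1, ncard_range hb]) h2 h3 fun t _ => ?_
  have := h4 (l.take t) (l.drop t) (List.take_append_drop t l).symm
  rw [fs_eq, fs_eq, ss_eq, ss_eq] at this
  exact this

end Pool.Agent.H56Gab
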