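import Pool.Agent.Gab7c47.Down

/-!
# Cyclic orderings as lists of pairs

List form of Gabow's cyclic orderings: the list `l = [(u 0, v 0), ..., (u (r - 1), v (r - 1))]` is
good if for all `t ≤ r` the sets `{v 0, ..., v (t - 1), u t, ..., u (r - 1)}` and
`{u 0, ..., u (t - 1), v t, ..., v (r - 1)}` are bases.
-/

set_option autoImplicit false

namespace Pool.Agent.H56Gab

open Pool.Agent.Gab7c47

variable {α : Type*}

/-- first components -/
def fs (l : List (α × α)) : Set α := {x | x ∈ l.map Prod.fst}
/-- second components -/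
def sn (l : List (α × α)) : Set α := {x | x ∈ l.map Prod.snd}

/-- All windows of the cyclic sequence are bases. -/
def GabL (M : Matroid α) (l : List (α × α)) : Prop :=
  ∀ t ≤ l.length, M.IsBase (sn (l.take t) ∪ fs (l.drop t)) ∧
    M.IsBase (fs (l.take t) ∪ sn (l.drop t))

theorem block_low {r : ℕ} (u v : Fin r → α) (t : ℕ) (ht : t < r + r) (h : t ≤ r) :
    block u v ⟨t, ht⟩ = {x | (∃ i : Fin r, i.val < t ∧ v i = x) ∨ ∃ i : Fin r, t ≤ i.val ∧ u i = x} := by
  ext x
  constructor
  · rintro ⟨j, hj, hx⟩
    rw [sub_lt] at hj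
    revert hj hx
    refine Fin.addCases (fun k => ?_) (fun k => ?_) j
    · intro hj hx
      have := k.2
      unfold W at hj
      rw [Fin.val_castAdd] at hj
      simp only at hj
      rw [Fin.append_left] at hx
      exact Or.inr ⟨k, by omega, hx.symm⟩
    · intro hj hx
      have := k.2
      unfold W at hj
      rw [Fin.val_natAdd] at hj
      simp only at hj
      rw [Fin.append_right] at hx
      exact Or.inl ⟨k, by omega, hx.symm⟩
  · rintro (⟨k, hk, hx⟩ | ⟨k, hk, hx⟩)
    · refine ⟨Fin.natAdd r k, ?_, by rw [Fin.append_right, hx]⟩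
      have := k.2
      rw [sub_lt]
      unfold W
      rw [Fin.val_natAdd]
      simp only
      omega
    · refine ⟨Fin.castAdd r k, ?_, by rw [Fin.append_left, hx]⟩
      have := k.2
      rw [sub_lt]
      unfold W
      rw [Fin.val_castAdd]
      simp only
      omega

theorem block_high {r : ℕ} (u v : Fin r → α) (t : ℕ) (ht : r + t < r + r) :
    block u v ⟨r + t, ht⟩ =
      {x | (∃ i : Fin r, i.val < t ∧ u i = x) ∨ ∃ i : Fin r, t ≤ i.val ∧ v i = x} := by
  ext x
  constructor
  · rintro ⟨j, hj, hx⟩
    rw [sub_lt] at hj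
    revert hj hx
    refine Fin.addCases (fun k => ?_) (fun k => ?_) j
    · intro hj hx
      have := k.2
      unfold W at hj
      rw [Fin.val_castAdd] at hj
      simp only at hj
      rw [Fin.append_left] at hx
      exact Or.inl ⟨k, by omega, hx.symm⟩
    · intro hj hx
      have := k.2
      unfold W at hj
      rw [Fin.val_natAdd] at hj
      simp only at hj
      rw [Fin.append_right] at hx
      exact Or.inr ⟨k, by omega, hx.symm⟩
  · rintro (⟨k, hk, hx⟩ | ⟨k, hk, hx⟩)
    · refine ⟨Fin.castAdd r k, ?_, by rw [Fin.append_left, hx]⟩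
      have := k.2
      rw [sub_lt]
      unfold W
      rw [Fin.val_castAdd]
      simp only
      omega
    · refine ⟨Fin.natAdd r k, ?_, by rw [Fin.append_right, hx]⟩
      have := k.2
      rw [sub_lt]
      unfold W
      rw [Fin.val_natAdd]
      simp only
      omega

theorem mem_take {β : Type*} {l : List (α × α)} {g : α × α → β} {t : ℕ} {x : β} :
    x ∈ (l.take t).map g ↔ ∃ i : Fin l.length, i.val < t ∧ g (l.get i) = x := by
  rw [List.mem_map]
  constructor
  · rintro ⟨p, hp, rfl⟩
    obtain ⟨i, hi, rfl⟩ := List.mem_take_iff_getElem.1 hp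
    exact ⟨⟨i, by omega⟩, by simp only; omega, rfl⟩
  · rintro ⟨i, hi, rfl⟩
    exact ⟨l.get i, List.mem_take_iff_getElem.2 ⟨i.val, by have := i.2; omega, rfl⟩, rfl⟩

theorem mem_drop {β : Type*} {l : List (α × α)} {g : α × α → β} {t : ℕ} {x : β} :
    x ∈ (l.drop t).map g ↔ ∃ i : Fin l.length, t ≤ i.val ∧ g (l.get i) = x := by
  rw [List.mem_map]
  constructor
  · rintro ⟨p, hp, rfl⟩
    obtain ⟨i, hi, rfl⟩ := List.mem_drop_iff_getElem.1 hp
    exact ⟨⟨t + i, by omega⟩, by simp only; omega, rfl⟩
  · rintro ⟨i, hi, rfl⟩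
    refine ⟨l.get i, List.mem_drop_iff_getElem.2 ⟨i.val - t, by have := i.2; omega, ?_⟩, rfl⟩
    simp only [List.get_eq_getElem]
    congr 1
    omega

/-- A good list gives good blocks. -/
theorem block_of_gabL {M : Matroid α} {l : List (α × α)} (h : GabL M l)
    (i : Fin (l.length + l.length)) :
    M.IsBase (block (fun k => (l.get k).1) (fun k => (l.get k).2) i) := by
  obtain ⟨t, ht⟩ := i
  rcases Nat.lt_or_ge l.length t with h1 | h1
  · obtain ⟨s, rfl⟩ := Nat.exists_eq_add_of_le h1.le
    rw [block_high]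
    have := (h s (by omega)).2
    convert this using 1
    ext x
    simp only [fs, sn, Set.mem_union, Set.mem_setOf_eq, mem_take, mem_drop]
  · rw [block_low _ _ _ _ h1]
    have := (h t h1).1
    convert this using 1
    ext x
    simp only [fs, sn, Set.mem_union, Set.mem_setOf_eq, mem_take, mem_drop]

/-- Good blocks give a good list. -/
theorem gabL_of_block {M : Matroid α} {r : ℕ} {u v : Fin r → α}
    (hu : M.IsBase (Set.range u)) (hv : M.IsBase (Set.range v))
    (h : ∀ i : Fin (r + r), M.IsBase (block u v i)) :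
    GabL M (List.ofFn fun i => (u i, v i)) := by
  have e : (List.ofFn fun i => (u i, v i)).length = r := List.length_ofFn
  have key : ∀ (g : α × α → α) (P : ℕ → Prop) (x : α),
      (∃ i : Fin (List.ofFn fun i => (u i, v i)).length, P i.val ∧
        g ((List.ofFn fun i => (u i, v i)).get i) = x) ↔
      ∃ i : Fin r, P i.val ∧ g (u i, v i) = x := by
    intro g P x
    constructor
    · rintro ⟨i, hi, hx⟩
      refine ⟨⟨i.val, by have := i.2; omega⟩, hi, ?_⟩
      rw [← hx]
      simp
    · rintro ⟨i, hi, hx⟩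
      refine ⟨⟨i.val, by have := i.2; omega⟩, hi, ?_⟩
      rw [← hx]
      simp
  intro t ht
  rw [e] at ht
  constructor
  · rcases Nat.eq_zero_or_pos r with h0 | h0
    · subst h0
      convert hu using 1
      ext x
      simp only [fs, sn, Set.mem_union, Set.mem_setOf_eq, mem_take, mem_drop, key, Set.mem_range]
      constructor
      · rintro (⟨i, _⟩ | ⟨i, _⟩) <;> exact i.elim0
      · rintro ⟨i, _⟩; exact i.elim0
    · have := h ⟨t, by omega⟩
      rw [block_low _ _ _ _ ht] at this
      convert this using 1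
      ext x
      simp only [fs, sn, Set.mem_union, Set.mem_setOf_eq, mem_take, mem_drop]
      rw [key Prod.snd (fun i => i < t) x, key Prod.fst (fun i => t ≤ i) x]
  · rcases Nat.lt_or_ge t r with h1 | h1
    · have := h ⟨r + t, by omega⟩
      rw [block_high] at this
      convert this using 1
      ext x
      simp only [fs, sn, Set.mem_union, Set.mem_setOf_eq, mem_take, mem_drop]
      rw [key Prod.fst (fun i => i < t) x, key Prod.snd (fun i => t ≤ i) x]
    · convert hu using 1
      ext x
      simp only [fs, sn, Set.mem_union, Set.mem_setOf_eq, mem_take, mem_drop, Set.mem_range]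
      rw [key Prod.fst (fun i => i < t) x, key Prod.snd (fun i => t ≤ i) x]
      constructor
      · rintro (⟨i, _, hx⟩ | ⟨i, hi, _⟩)
        · exact ⟨i, hx⟩
        · exact absurd i.2 (by omega)
      · rintro ⟨i, hx⟩
        exact Or.inl ⟨i, by have := i.2; omega, hx⟩

/-- A good list gives permutations. -/
theorem perms {M : Matroid α} {r : ℕ} {b b' : Fin r → α} (hb : Function.Injective b)
    (hb' : Function.Injective b') {l : List (α × α)} (hl : l.length = r)
    (h1 : fs l = Set.range b) (h2 : sn l = Set.range b') (hG : GabL M l) :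
    ∃ σ σ' : Equiv.Perm (Fin r), ∀ i : Fin (r + r), M.IsBase (block (b ∘ σ) (b' ∘ σ') i) := by
  subst hl
  have A : ∀ (g : α × α → α) (c : Fin l.length → α), Function.Injective c →
      {x | x ∈ l.map g} = Set.range c → ∃ σ : Equiv.Perm (Fin l.length),
        ∀ i, c (σ i) = g (l.get i) := by
    intro g c hc he
    have h : ∀ i : Fin l.length, ∃ k, c k = g (l.get i) := by
      intro i
      have : g (l.get i) ∈ Set.range c := by
        rw [← he]
        exact List.mem_map.2 ⟨l.get i, List.get_mem _ _, rfl⟩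
      exact this
    choose f hf using h
    have hs : Function.Surjective f := by
      intro k
      have : c k ∈ {x | x ∈ l.map g} := by rw [he]; exact ⟨k, rfl⟩
      obtain ⟨p, hp, hpk⟩ := List.mem_map.1 this
      obtain ⟨i, hi⟩ := List.get_of_mem hp
      exact ⟨i, hc (by rw [hf, hi, hpk])⟩
    exact ⟨Equiv.ofBijective f (Finite.surjective_iff_bijective.1 hs), hf⟩
  obtain ⟨σ, hσ⟩ := A Prod.fst b hb h1
  obtain ⟨σ', hσ'⟩ := A Prod.snd b' hb' h2
  refine ⟨σ, σ', fun i => ?_⟩
  have e1 : b ∘ σ = fun k => (l.get k).1 := funext hσ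
  have e2 : b' ∘ σ' = fun k => (l.get k).2 := funext hσ'
  rw [e1, e2]
  exact block_of_gabL hG i

end Pool.Agent.H56Gab
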