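import Pool.Agent.H56Gab.Lst
import Pool.Agent.Gab7c47.Common
import Pool.Agent.Gab7c_h87.Final

/-!
# Good lists of pairs, bases with few different elements
-/

set_option autoImplicit false

namespace Pool.Agent.H56Gab

open Pool.Agent.Gab7c47

variable {α : Type*}

/-- all windows satisfy `P` -/
def LGood (P : Set α → Prop) (L : List (α × α)) : Prop :=
  ∀ L1 L2, L = L1 ++ L2 → P (fs L2 ∪ sn L1) ∧ P (sn L2 ∪ fs L1)

/-- a good ordering of `B` and `B'` -/
def Ord (P : Set α → Prop) (B B' : Set α) : Prop :=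
  ∃ L : List (α × α), (L.map Prod.fst).Nodup ∧ (L.map Prod.snd).Nodup ∧ fs L = B ∧ sn L = B' ∧
    LGood P L

theorem lgood_iff {M : Matroid α} {L : List (α × α)} : LGood M.IsBase L ↔ GabL M L := by
  constructor
  · intro h t _
    have := h (L.take t) (L.drop t) (List.take_append_drop t L).symm
    rw [Set.union_comm, Set.union_comm (fs (L.take t))]
    exact this
  · rintro h L1 L2 rfl
    have := h L1.length (by rw [List.length_append]; omega)
    rw [List.take_left', List.drop_left'] at this
    · rw [Set.union_comm, Set.union_comm (sn L2)]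
      exact this
    · rfl
    · rfl

theorem toFin {M : Matroid α} {r : ℕ} {b b' : Fin r → α} (hb : Function.Injective b)
    (hb' : Function.Injective b') (h : Ord M.IsBase (Set.range b) (Set.range b')) :
    ∃ σ σ' : Equiv.Perm (Fin r), ∀ i : Fin (r + r), M.IsBase (block (b ∘ σ) (b' ∘ σ') i) := by
  obtain ⟨L, h1, h2, h3, h4, h5⟩ := h
  refine perms hb hb' ?_ h3 h4 (lgood_iff.1 h5)
  have e1 : (Set.range b).ncard = r := by
    rw [← Set.image_univ, Set.ncard_image_of_injective _ hb, Set.ncard_univ, Nat.card_eq_fintype_card,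
      Fintype.card_fin]
  have e2 : (fs L).ncard = L.length := by
    classical
    have : fs L = ((L.map Prod.fst).toFinset : Set α) := by
      ext x
      simp [fs]
    rw [this, Set.ncard_coe_finset, List.toFinset_card_of_nodup h1, List.length_map]
  rw [← e2, h3, e1]

/-- Every pair of finite bases with at most seven different elements has a good ordering. -/
theorem ofFin {M : Matroid α} {B B' : Set α} (hB : M.IsBase B) (hB' : M.IsBase B')
    (hf : B.Finite) (hd : (B \ B').ncard ≤ 7) : Ord M.IsBase B B' := by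
  classical
  have hf' : B'.Finite := by
    have := hB.encard_eq_encard_of_isBase hB'
    rw [← Set.encard_lt_top_iff] at hf ⊢
    rwa [← this]
  have hn : B.ncard = B'.ncard := hB.ncard_eq_ncard_of_isBase hB'
  obtain ⟨r, hr⟩ : ∃ r, B.ncard = r := ⟨_, rfl⟩
  have E : ∀ C : Set α, C.Finite → C.ncard = r → ∃ b : Fin r → α, Function.Injective b ∧
      Set.range b = C := by
    intro C hC hc
    have hc' : hC.toFinset.card = r := by rw [← hc, Set.ncard_eq_toFinset_card C hC]
    let e := (hC.toFinset.equivFinOfCardEq hc').symm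
    refine ⟨fun i => (e i).1, fun i j hij => e.injective (Subtype.ext hij), ?_⟩
    ext x
    constructor
    · rintro ⟨i, rfl⟩
      exact hC.mem_toFinset.1 (e i).2
    · intro hx
      obtain ⟨i, hi⟩ := e.surjective ⟨x, hC.mem_toFinset.2 hx⟩
      exact ⟨i, congrArg Subtype.val hi⟩
  obtain ⟨b, hb, rb⟩ := E B hf hr
  obtain ⟨b', hb', rb'⟩ := E B' hf' (by rw [← hn, hr])
  subst rb rb'
  obtain ⟨σ, σ', h⟩ := few
    (fun M _ hr b b' h1 h2 h3 h4 => Pool.Agent.Gab7c_h87.gabow_le_seven M hr b b' h1 h2 h3 h4)
    M b b' hb hb' hB hB' hd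
  have r1 : Set.range (b ∘ σ) = Set.range b := σ.surjective.range_comp b
  have r2 : Set.range (b' ∘ σ') = Set.range b' := σ'.surjective.range_comp b'
  have hG := gabL_of_block (M := M) (u := b ∘ σ) (v := b' ∘ σ') (by rw [r1]; exact hB)
    (by rw [r2]; exact hB') h
  refine ⟨List.ofFn fun i => ((b ∘ σ) i, (b' ∘ σ') i), ?_, ?_, ?_, ?_, lgood_iff.2 hG⟩
  · rw [List.map_ofFn]
    exact List.nodup_ofFn.2 (hb.comp σ.injective)
  · rw [List.map_ofFn]
    exact List.nodup_ofFn.2 (hb'.comp σ'.injective)
  · rw [← r1]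
    ext x
    simp only [fs, Set.mem_setOf_eq, List.map_ofFn, List.mem_ofFn, Function.comp_apply,
      Set.mem_range]
  · rw [← r2]
    ext x
    simp only [sn, Set.mem_setOf_eq, List.map_ofFn, List.mem_ofFn, Function.comp_apply,
      Set.mem_range]

end Pool.Agent.H56Gab
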